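import Pool.Agent.helper7.AL.SpecD

/-!
# AL, row LCD: counting at common scales
-/

set_option autoImplicit false

namespace Pool.Agent.LD

open Finset Pool.Agent.helper85.FC Pool.Agent.AT

open Classical in
theorem LCD : LCD_stmt := by
  intro ι κ _ _ A B R P t₀ hA h
  have hne : Nonempty ι := ⟨(h t₀ le_rfl).choose⟩
  have hcp : 0 < Fintype.card ι := Fintype.card_pos
  choose! f hf using h
  have h1 : ∀ T : ℕ, ∃ e, T ≤ Fintype.card ι * ((Ico t₀ (t₀ + T)).filter fun t => f t = e).card := by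
    intro T
    by_contra hcon
    push Not at hcon
    have e1 : ∑ e : ι, ((Ico t₀ (t₀ + T)).filter fun t => f t = e).card = T := by
      rw [← Finset.card_eq_sum_card_fiberwise (f := f) (s := Ico t₀ (t₀ + T)) (t := Finset.univ)
        (fun t _ => Finset.mem_coe.mpr (Finset.mem_univ _)), Nat.card_Ico]
      omega
    have e2 : ∑ e : ι, Fintype.card ι * ((Ico t₀ (t₀ + T)).filter fun t => f t = e).card < ∑ e : ι, T :=
      Finset.sum_lt_sum_of_nonempty Finset.univ_nonempty fun e _ => hcon e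
    rw [← Finset.mul_sum, e1, Finset.sum_const, Finset.card_univ, smul_eq_mul] at e2
    exact lt_irrefl _ e2
  choose g hg using h1
  obtain ⟨e, he⟩ := Finite.exists_infinite_fiber g
  have he' : (g ⁻¹' {e}).Infinite := Set.infinite_coe_iff.mp he
  obtain ⟨D, hD1, hD⟩ : ∃ D : ℕ, 1 ≤ D ∧ ∀ j, (A e j).natAbs + (B e j).natAbs ≤ D := by
    refine ⟨1 + ∑ j, ((A e j).natAbs + (B e j).natAbs), by omega, fun j => ?_⟩
    have := Finset.single_le_sum (f := fun j => (A e j).natAbs + (B e j).natAbs) (fun _ _ => Nat.zero_le _)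
      (Finset.mem_univ j)
    omega
  have hcι : (0 : ℝ) < Fintype.card ι := by exact_mod_cast hcp
  have hDr : (0 : ℝ) < D := by exact_mod_cast hD1
  refine ⟨e, 1 / (Fintype.card ι * D * (t₀ + 1)), by positivity, fun X₀ => ?_⟩
  obtain ⟨T, hT, hTX⟩ := he'.exists_gt (X₀ + 1)
  have hTe : g T = e := hT
  refine ⟨D * (t₀ + T), ?_, fun j hj => ?_⟩
  · calc X₀ ≤ 1 * (t₀ + T) := by omega
      _ ≤ D * (t₀ + T) := Nat.mul_le_mul_right _ hD1
  · have hcard : ((Ico t₀ (t₀ + T)).filter fun t => f t = e).card ≤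
        ((Icc (-((D * (t₀ + T) : ℕ) : ℤ)) ((D * (t₀ + T) : ℕ) : ℤ)).filter fun c => P e j c).card := by
      apply Finset.card_le_card_of_injOn (fun t : ℕ => A e j * t + B e j)
      · intro t ht
        rw [Finset.mem_coe, Finset.mem_filter, Finset.mem_Ico] at ht
        obtain ⟨⟨ht1, ht2⟩, ht3⟩ := ht
        rw [Finset.mem_coe, Finset.mem_filter, Finset.mem_Icc, ← abs_le]
        constructor
        · have a1 : |A e j * (t : ℤ) + B e j| ≤ |A e j| * (t : ℤ) + |B e j| := by
            calc |A e j * (t : ℤ) + B e j| ≤ |A e j * (t : ℤ)| + |B e j| := abs_add_le _ _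
              _ = |A e j| * (t : ℤ) + |B e j| := by rw [abs_mul, abs_of_nonneg (Int.natCast_nonneg t)]
          have a2 : |A e j| + |B e j| ≤ (D : ℤ) := by
            have := hD j
            have h3 : ((A e j).natAbs : ℤ) + ((B e j).natAbs : ℤ) ≤ (D : ℤ) := by exact_mod_cast this
            rwa [Int.natCast_natAbs, Int.natCast_natAbs] at h3
          have a3 : (t : ℤ) ≤ ((t₀ + T : ℕ) : ℤ) := by exact_mod_cast ht2.le
          have a4 : (1 : ℤ) ≤ ((t₀ + T : ℕ) : ℤ) := by
            have : 1 ≤ t₀ + T := by omega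
            exact_mod_cast this
          have b1 := abs_nonneg (A e j)
          have b2 := abs_nonneg (B e j)
          calc |A e j * (t : ℤ) + B e j| ≤ |A e j| * (t : ℤ) + |B e j| := a1
            _ ≤ |A e j| * ((t₀ + T : ℕ) : ℤ) + |B e j| * ((t₀ + T : ℕ) : ℤ) := by
                have c1 := mul_le_mul_of_nonneg_left a3 b1
                have c2 := le_mul_of_one_le_right b2 a4
                linarith
            _ = (|A e j| + |B e j|) * ((t₀ + T : ℕ) : ℤ) := by ring
            _ ≤ (D : ℤ) * ((t₀ + T : ℕ) : ℤ) := mul_le_mul_of_nonneg_right a2 (by linarith)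
            _ = ((D * (t₀ + T) : ℕ) : ℤ) := by push_cast; ring
        · have := hf t ht1 j (by rw [ht3]; exact hj)
          rw [ht3] at this
          exact this
      · intro t _ t' _ htt
        have hA0 := hA e j hj
        simp only [add_left_inj, mul_eq_mul_left_iff, Nat.cast_inj] at htt
        exact htt.resolve_right hA0
    have hgT := hg T
    rw [hTe] at hgT
    have hT1 : T ≤ Fintype.card ι * ((Icc (-((D * (t₀ + T) : ℕ) : ℤ)) ((D * (t₀ + T) : ℕ) : ℤ)).filter fun c => P e j c).card :=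
      hgT.trans (Nat.mul_le_mul_left _ hcard)
    have hT2 : (T : ℝ) ≤ Fintype.card ι * (((Icc (-((D * (t₀ + T) : ℕ) : ℤ)) ((D * (t₀ + T) : ℕ) : ℤ)).filter fun c => P e j c).card : ℝ) := by
      exact_mod_cast hT1
    have hT3 : (1 : ℝ) ≤ T := by
      have : 1 ≤ T := by omega
      exact_mod_cast this
    have ht0 : (0 : ℝ) ≤ t₀ := Nat.cast_nonneg _
    have hx : 1 / (Fintype.card ι * D * ((t₀ : ℝ) + 1)) * ((D * (t₀ + T) : ℕ) : ℝ) ≤ T / Fintype.card ι := by
      push_cast
      rw [div_mul_eq_mul_div, div_le_div_iff₀ (by positivity) hcι]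
      have : (t₀ : ℝ) + T ≤ T * (t₀ + 1) := by nlinarith
      calc 1 * ((D : ℝ) * (t₀ + T)) * Fintype.card ι = (Fintype.card ι * D) * (t₀ + T) := by ring
        _ ≤ (Fintype.card ι * D) * (T * (t₀ + 1)) := mul_le_mul_of_nonneg_left this (by positivity)
        _ = T * (Fintype.card ι * D * (t₀ + 1)) := by ring
    calc 1 / (Fintype.card ι * D * ((t₀ : ℝ) + 1)) * ((D * (t₀ + T) : ℕ) : ℝ) ≤ T / Fintype.card ι := hx
      _ ≤ _ := by
        rw [div_le_iff₀ hcι]
        linarith

end Pool.Agent.LD
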